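import Mathlib
import Pool.Agent.Helper40.Nil.Stmts

/-! Module AVG of project Nil: basic facts on Folner sequences. -/

namespace Pool.Agent.Helper40.Nil

open Filter Topology
open scoped ComplexConjugate InnerProductSpace

universe u

theorem avg_natcard {D : Type} (S : Finset D) (p : D → Prop) [DecidablePred p]
    (hp : ∀ x, p x → x ∈ S) : (Nat.card {x // p x} : ℝ) = ((S.filter p).card : ℝ) := by
  have h1 : {x | p x} = (↑(S.filter p) : Set D) := by
    ext x
    simp only [Finset.coe_filter]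
    exact ⟨fun h => ⟨hp x h, h⟩, fun h => h.2⟩
  have : Nat.card {x // p x} = (S.filter p).card := by
    have h2 : Nat.card {x // p x} = Set.ncard {x | p x} := rfl
    rw [h2, h1, Set.ncard_coe_finset]
  rw [this]

theorem avg_card {D : Type} [AddCommGroup D] [DecidableEq D] (S : Finset D) (h : D) :
    (Nat.card {x // x ∈ S ∧ x + h ∉ S} : ℝ) = ((S.filter (fun x => x + h ∉ S)).card : ℝ) := by
  rw [avg_natcard S (fun x => x ∈ S ∧ x + h ∉ S) (fun x hx => hx.1)]
  have : S.filter (fun x => x ∈ S ∧ x + h ∉ S) = S.filter (fun x => x + h ∉ S) := by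
    ext x
    simp only [Finset.mem_filter]
    tauto
  rw [this]

theorem avg_diff {D : Type} [AddCommGroup D] (S : Finset D) {E : Type u} [NormedAddCommGroup E]
    (f : D → E) (C : ℝ) (hC : ∀ x, ‖f x‖ ≤ C) (h : D) :
    ‖∑ x ∈ S, f (x + h) - ∑ x ∈ S, f x‖ ≤
      C * (Nat.card {x // x ∈ S ∧ x + h ∉ S} : ℝ) + C * (Nat.card {x // x ∈ S ∧ x + (-h) ∉ S} : ℝ) := by
  classical
  rw [avg_card, avg_card]
  have e1 : ∑ x ∈ S, f (x + h) = ∑ x ∈ S.filter (fun x => x + h ∈ S), f (x + h) +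
      ∑ x ∈ S.filter (fun x => x + h ∉ S), f (x + h) :=
    (Finset.sum_filter_add_sum_filter_not S _ _).symm
  have e2 : ∑ x ∈ S, f x = ∑ x ∈ S.filter (fun x => x + (-h) ∈ S), f x +
      ∑ x ∈ S.filter (fun x => x + (-h) ∉ S), f x :=
    (Finset.sum_filter_add_sum_filter_not S _ _).symm
  have e3 : ∑ x ∈ S.filter (fun x => x + h ∈ S), f (x + h) =
      ∑ x ∈ S.filter (fun x => x + (-h) ∈ S), f x := by
    refine Finset.sum_nbij' (fun x => x + h) (fun x => x + (-h)) ?_ ?_ ?_ ?_ ?_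
    · intro x hx
      simp only [Finset.mem_filter] at hx ⊢
      refine ⟨hx.2, ?_⟩
      rw [add_neg_cancel_right]
      exact hx.1
    · intro x hx
      simp only [Finset.mem_filter] at hx ⊢
      refine ⟨hx.2, ?_⟩
      rw [neg_add_cancel_right]
      exact hx.1
    · intro x _
      exact add_neg_cancel_right x h
    · intro x _
      exact neg_add_cancel_right x h
    · intro x _
      rfl
  have e4 : ∑ x ∈ S, f (x + h) - ∑ x ∈ S, f x =
      ∑ x ∈ S.filter (fun x => x + h ∉ S), f (x + h) -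
        ∑ x ∈ S.filter (fun x => x + (-h) ∉ S), f x := by
    rw [e1, e2, e3]
    abel
  have key : ∀ (T : Finset D) (g : D → E), (∀ x, ‖g x‖ ≤ C) → ‖∑ x ∈ T, g x‖ ≤ C * (T.card : ℝ) := by
    intro T g hg
    refine (norm_sum_le_of_le T (fun x _ => hg x)).trans ?_
    rw [Finset.sum_const, nsmul_eq_mul, mul_comm]
  rw [e4]
  refine (norm_sub_le _ _).trans (add_le_add ?_ ?_)
  · exact key _ _ (fun x => hC _)
  · exact key _ _ hC

theorem avg_part1 (D : Type) [AddCommGroup D] (Φ : ℕ → Finset D) (hΦ : IsFolner Φ)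
    (E : Type u) [NormedAddCommGroup E] [NormedSpace ℂ E] (f : D → E) (C : ℝ)
    (hC : ∀ x, ‖f x‖ ≤ C) (h : D) :
    Tendsto (fun N => avg (Φ N) (fun x => f (x + h)) - avg (Φ N) f) atTop (𝓝 0) := by
  have hb : Tendsto (fun N => C * ((Nat.card {x // x ∈ Φ N ∧ x + h ∉ Φ N} : ℝ) / (Φ N).card) +
      C * ((Nat.card {x // x ∈ Φ N ∧ x + (-h) ∉ Φ N} : ℝ) / (Φ N).card)) atTop (𝓝 0) := by
    have := ((hΦ.inv h).const_mul C).add ((hΦ.inv (-h)).const_mul C)
    simpa using this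
  refine squeeze_zero_norm (fun N => ?_) hb
  unfold avg
  rw [← smul_sub, norm_smul, norm_inv, Complex.norm_natCast]
  have hpos : (0 : ℝ) < (Φ N).card := by exact_mod_cast (hΦ.nonempty N).card_pos
  have h2 := avg_diff (Φ N) f C hC h
  have h3 := mul_le_mul_of_nonneg_left h2 (inv_nonneg.mpr hpos.le)
  refine h3.trans (le_of_eq ?_)
  field_simp

theorem avg_part2 (D : Type) [AddCommGroup D] (Φ : ℕ → Finset D) (hΦ : IsFolner Φ) :
    IsFolner (fun N => Φ N ×ˢ Φ N) := by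
  classical
  refine ⟨fun N => (hΦ.nonempty N).product (hΦ.nonempty N), ?_⟩
  rintro ⟨h, k⟩
  have hb : Tendsto (fun N => (Nat.card {x // x ∈ Φ N ∧ x + h ∉ Φ N} : ℝ) / (Φ N).card +
      (Nat.card {x // x ∈ Φ N ∧ x + k ∉ Φ N} : ℝ) / (Φ N).card) atTop (𝓝 0) := by
    have := (hΦ.inv h).add (hΦ.inv k)
    simpa using this
  refine squeeze_zero (fun N => by positivity) (fun N => ?_) hb
  have hpos : (0 : ℝ) < (Φ N).card := by exact_mod_cast (hΦ.nonempty N).card_pos
  rw [avg_card (Φ N ×ˢ Φ N) (h, k), avg_card, avg_card, Finset.card_product]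
  have hsub : (Φ N ×ˢ Φ N).filter (fun x => x + (h, k) ∉ Φ N ×ˢ Φ N) ⊆
      ((Φ N).filter (fun x => x + h ∉ Φ N)) ×ˢ Φ N ∪ Φ N ×ˢ ((Φ N).filter (fun x => x + k ∉ Φ N)) := by
    rintro ⟨x, y⟩ hxy
    simp only [Finset.mem_filter, Finset.mem_union, Finset.mem_product, Prod.mk_add_mk] at hxy ⊢
    tauto
  have hcard : (((Φ N ×ˢ Φ N).filter (fun x => x + (h, k) ∉ Φ N ×ˢ Φ N)).card : ℝ) ≤
      (((Φ N).filter (fun x => x + h ∉ Φ N)).card : ℝ) * (Φ N).card +
        (Φ N).card * (((Φ N).filter (fun x => x + k ∉ Φ N)).card : ℝ) := by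
    have := (Finset.card_le_card hsub).trans (Finset.card_union_le _ _)
    rw [Finset.card_product, Finset.card_product] at this
    exact_mod_cast this
  rw [Nat.cast_mul, div_add_div _ _ hpos.ne' hpos.ne']
  gcongr

theorem avg_part3 : IsFolner (fun N : ℕ => Finset.Ico (0 : ℤ) (N + 1)) := by
  classical
  refine ⟨fun N => Finset.nonempty_Ico.mpr (by positivity), ?_⟩
  intro h
  have hb : Tendsto (fun N : ℕ => (|h| : ℝ) / ((N : ℝ) + 1)) atTop (𝓝 0) :=
    tendsto_const_nhds.div_atTop (tendsto_natCast_atTop_atTop.atTop_add tendsto_const_nhds)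
  refine squeeze_zero (fun N => by positivity) (fun N => ?_) hb
  rw [avg_card]
  have hsub : (Finset.Ico (0 : ℤ) (N + 1)).filter (fun x => x + h ∉ Finset.Ico (0 : ℤ) (N + 1)) ⊆
      Finset.Ico ((N : ℤ) + 1 - h) (N + 1) ∪ Finset.Ico 0 (-h) := by
    intro x hx
    simp only [Finset.mem_filter, Finset.mem_union, Finset.mem_Ico] at hx ⊢
    omega
  have hc : (((Finset.Ico (0 : ℤ) (N + 1)).filter
      (fun x => x + h ∉ Finset.Ico (0 : ℤ) (N + 1))).card : ℝ) ≤ |(h : ℝ)| := by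
    have h1 := (Finset.card_le_card hsub).trans (Finset.card_union_le _ _)
    rw [Int.card_Ico, Int.card_Ico] at h1
    have h2 : (((Finset.Ico (0 : ℤ) (N + 1)).filter
      (fun x => x + h ∉ Finset.Ico (0 : ℤ) (N + 1))).card : ℤ) ≤ |h| := by
      rcases abs_cases h with h3 | h3 <;> omega
    exact_mod_cast h2
  have hcard : (((Finset.Ico (0 : ℤ) (N + 1)).card : ℕ) : ℝ) = (N : ℝ) + 1 := by
    rw [Int.card_Ico]
    have : ((N : ℤ) + 1 - 0).toNat = N + 1 := by omega
    rw [this]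
    push_cast
    ring
  rw [hcard]
  gcongr

theorem st_AVG : ST_AVG.{u} := ⟨avg_part1, avg_part2, avg_part3⟩

end Pool.Agent.Helper40.Nil
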