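import Mathlib
import Pool.Agent.Helper40.Nil.Stmts
import Pool.Agent.Helper53.Nil.FDL

/-! Module FDQ of project Nil: the finite dimensional case with weights. -/

namespace Pool.Agent.Helper40.Nil

open Filter Topology Polynomial
open scoped ComplexConjugate InnerProductSpace FourierTransform

universe u

/-- a sequence given by polynomial phases on the residue classes is orthogonal to the weight -/
theorem fdq_sum (ν : ℕ → ℂ) (hν : Wiener.OrthPoly ν) (g : ℕ → ℂ) (M : ℕ) (hM : 1 ≤ M)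
    (Q : ℕ → ℝ[X]) (hQ : ∀ r < M, ∀ q : ℕ, g (M * q + r) = (𝐞 ((Q r).eval (q : ℝ)) : ℂ) * g r) :
    Tendsto (fun N : ℕ => (∑ n ∈ Finset.range N, ν n * g n) / (N : ℂ)) atTop (𝓝 0) := by
  have hM0 : (M : ℝ) ≠ 0 := by positivity
  have hM0' : (M : ℂ) ≠ 0 := by exact_mod_cast hM0
  set P : ℕ → ℕ → ℝ[X] := fun r a =>
    (Q r).comp (C ((M : ℝ)⁻¹) * (X - C (r : ℝ))) + C (a : ℝ) * (C ((M : ℝ)⁻¹) * (X - C (r : ℝ)))
    with hP
  have hPe : ∀ r a n : ℕ, (P r a).eval (n : ℝ) =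
      (Q r).eval ((M : ℝ)⁻¹ * ((n : ℝ) - r)) + (a : ℝ) * ((((n : ℤ) - r : ℤ) : ℝ) / M) := by
    intro r a n
    simp only [hP, eval_add, eval_mul, eval_C, eval_sub, eval_X, eval_comp]
    push_cast
    ring
  have hid : ∀ n : ℕ, g n = (M : ℂ)⁻¹ * ∑ r ∈ Finset.range M, g r *
      ∑ a ∈ Finset.range M, (𝐞 ((P r a).eval (n : ℝ)) : ℂ) := by
    intro n
    have h1 : ∀ r, ∑ a ∈ Finset.range M, (𝐞 ((P r a).eval (n : ℝ)) : ℂ) =
        (𝐞 ((Q r).eval ((M : ℝ)⁻¹ * ((n : ℝ) - r))) : ℂ) *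
          (if (M : ℤ) ∣ ((n : ℤ) - r) then (M : ℂ) else 0) := by
      intro r
      rw [← Wiener.root_filter M hM, Finset.mul_sum]
      refine Finset.sum_congr rfl (fun a _ => ?_)
      rw [hPe, AddChar.map_add_eq_mul]
      push_cast
      rfl
    simp only [h1]
    have hlt : n % M < M := Nat.mod_lt _ hM
    rw [Finset.sum_eq_single_of_mem (n % M) (Finset.mem_range.mpr hlt)]
    · have h2 : ((M : ℤ) ∣ ((n : ℤ) - (n % M : ℕ))) := by
        rw [Int.natCast_mod]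
        exact Int.dvd_self_sub_emod
      rw [if_pos h2]
      have h3 : (M : ℝ)⁻¹ * ((n : ℝ) - ((n % M : ℕ) : ℝ)) = ((n / M : ℕ) : ℝ) := by
        have h4 : (n : ℝ) = M * ((n / M : ℕ) : ℝ) + ((n % M : ℕ) : ℝ) := by
          exact_mod_cast (Nat.div_add_mod n M).symm
        rw [h4, add_sub_cancel_right, ← mul_assoc, inv_mul_cancel₀ hM0, one_mul]
      rw [h3]
      have h5 := hQ (n % M) hlt (n / M)
      rw [Nat.div_add_mod] at h5
      rw [h5]
      field_simp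
    · intro r hr hne
      have h2 : ¬ ((M : ℤ) ∣ ((n : ℤ) - r)) := by
        intro h
        apply hne
        have hr' : r < M := Finset.mem_range.mp hr
        have h3 : (r : ℤ) ≡ n [ZMOD M] := (Int.modEq_iff_dvd).mpr h
        have h4 : r ≡ n [MOD M] := Int.natCast_modEq_iff.mp h3
        have h5 : r % M = n % M := h4
        rw [Nat.mod_eq_of_lt hr'] at h5
        exact h5
      rw [if_neg h2, mul_zero, mul_zero]
  have hlim : Tendsto (fun N : ℕ => (M : ℂ)⁻¹ * ∑ r ∈ Finset.range M, g r *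
      ∑ a ∈ Finset.range M, ((∑ n ∈ Finset.range N, ν n * (𝐞 ((P r a).eval (n : ℝ)) : ℂ)) / (N : ℂ)))
      atTop (𝓝 ((M : ℂ)⁻¹ * ∑ r ∈ Finset.range M, g r * ∑ _a ∈ Finset.range M, (0 : ℂ))) := by
    refine Tendsto.const_mul _ (tendsto_finsetSum _ (fun r _ => ?_))
    refine Tendsto.const_mul _ (tendsto_finsetSum _ (fun a _ => ?_))
    exact hν (P r a)
  simp only [Finset.sum_const_zero, mul_zero] at hlim
  have hsum : ∀ N : ℕ, ∑ n ∈ Finset.range N, ν n * g n = (M : ℂ)⁻¹ * ∑ r ∈ Finset.range M, g r *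
      ∑ a ∈ Finset.range M, ∑ n ∈ Finset.range N, ν n * (𝐞 ((P r a).eval (n : ℝ)) : ℂ) := by
    intro N
    induction N with
    | zero => simp
    | succ N ih =>
      rw [Finset.sum_range_succ, ih]
      simp only [Finset.sum_range_succ _ N, Finset.sum_add_distrib, mul_add]
      congr 1
      have e1 := hid N
      rw [e1]
      simp only [Finset.mul_sum]
      refine Finset.sum_congr rfl (fun r _ => Finset.sum_congr rfl (fun a _ => ?_))
      ring
  refine hlim.congr (fun N => ?_)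
  rw [hsum N, mul_div_assoc, Finset.sum_div]
  congr 1
  refine Finset.sum_congr rfl (fun r _ => ?_)
  rw [mul_div_assoc, Finset.sum_div]

theorem st_FDQ (hEXT : ST_EXT.{u}) (hG1 : ST_G1.{u, u}) (hPER : ST_PER.{u})
    (hPOLA : ST_POLA.{u, u}) (hPOLA0 : ST_POLA.{u, 0}) (hPOLB : ST_POLB.{u}) (hCIRC : ST_CIRC) :
    ST_FDQ.{u} := by
  intro V _ hnil φ hφ E _ _ _ π ζ hG hfd w hw ν hν hνo
  have hφK : φ ∈ KK V := extremePoints_subset hφ
  have h1 : φ 1 = 1 := hφK.2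
  have hco := hG.coef
  have hζ := fdl_norm hco h1
  -- a power acts by scalars
  obtain ⟨e0, he0, hs0⟩ := hG1 V hnil E (fdl_lin π) (by
    intro T hT
    obtain ⟨c, hc⟩ := hEXT V φ hφ E π ζ hG (LinearMap.toContinuousLinearMap T)
      (fun x v => hT x v)
    exact ⟨c, fun v => hc v⟩)
  have hs : ∀ y : V, y ^ e0 ∈ fdl_N π := by
    intro y
    obtain ⟨c, hc⟩ := hs0 y
    refine ⟨c, ?_, fun v => hc v⟩
    rintro rfl
    have h2 := hc ζ
    rw [zero_smul, fdl_lin_apply] at h2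
    have h3 := congrArg norm h2
    rw [LinearIsometryEquiv.norm_map, hζ, norm_zero] at h3
    exact one_ne_zero h3
  -- periodicity modulo the scalars
  obtain ⟨M, hM, hMp⟩ := hPER ℤ (V ⧸ fdl_N π) (fun x => QuotientGroup.mk' (fdl_N π) (w x))
    (hPOLA.1 ℤ V (V ⧸ fdl_N π) (QuotientGroup.mk' (fdl_N π)) w hw) e0 he0 (by
      intro q
      obtain ⟨y, rfl⟩ := QuotientGroup.mk_surjective q
      rw [← QuotientGroup.mk_pow]
      exact (QuotientGroup.eq_one_iff _).2 (hs y))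
  have hMN : ∀ h x : ℤ, w (x + M • h) * (w x)⁻¹ ∈ fdl_N π := by
    intro h x
    have h2 := hMp x h
    have h3 : (w x)⁻¹ * w (x + M • h) ∈ fdl_N π := QuotientGroup.eq.1 h2.symm
    exact (fdl_normal π).mem_comm h3
  obtain ⟨χ, hχ⟩ : ∃ χ : fdl_N π →* Circle, ∀ y : fdl_N π, ((χ y : Circle) : ℂ) = φ y :=
    ⟨fdl_chi hco h1, fdl_chi_coe hco h1⟩
  -- the phases on the residue classes
  have hQ : ∀ r : ℕ, ∃ Q : ℝ[X], ∀ q : ℤ,
      φ (w ((r : ℤ) + M • q) * (w (r : ℤ))⁻¹) = (𝐞 (Q.eval (q : ℝ)) : ℂ) := by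
    intro r
    have h2 : IsPoly (fun q : ℤ => w (DistribSMul.toAddMonoidHom ℤ M q + (r : ℤ))) :=
      hPOLA.2.2 ℤ ℤ V (DistribSMul.toAddMonoidHom ℤ M) (r : ℤ) w hw
    have h2' : IsPoly (fun q : ℤ => w ((r : ℤ) + M • q)) := by
      have e1 : (fun q : ℤ => w (DistribSMul.toAddMonoidHom ℤ M q + (r : ℤ))) =
          fun q : ℤ => w ((r : ℤ) + M • q) := by
        funext q
        rw [add_comm]
        rfl
      rw [← e1]
      exact h2
    have h3 : IsPoly (fun q : ℤ => w ((r : ℤ) + M • q) * (w (r : ℤ))⁻¹) :=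
      (hPOLB ℤ V _ h2').1 (w (r : ℤ)) ⟨0, by rw [smul_zero, add_zero]⟩
    have h4 : IsPoly (fun q : ℤ =>
        (⟨w ((r : ℤ) + M • q) * (w (r : ℤ))⁻¹, hMN q (r : ℤ)⟩ : fdl_N π)) :=
      hPOLA.2.1 ℤ V (fdl_N π) (fdl_N π).subtype _ (Subgroup.subtype_injective _) h3
    have h5 := hPOLA0.1 ℤ (fdl_N π) Circle χ _ h4
    obtain ⟨Q, hQ⟩ := hCIRC _ h5
    refine ⟨Q, fun q => ?_⟩
    rw [← hQ q, hχ]
  choose Q hQ using hQ
  refine fdq_sum ν hνo (fun n => φ (w n)) M hM Q ?_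
  intro r _ q
  have h2 := hQ r (q : ℤ)
  have h3 : w (((M * q + r : ℕ) : ℤ)) = (w ((r : ℤ) + M • (q : ℤ)) * (w (r : ℤ))⁻¹) * w (r : ℤ) := by
    rw [inv_mul_cancel_right]
    congr 1
    push_cast
    rw [nsmul_eq_mul]
    ring
  rw [h3, hco, fdl_mul, fdl_act hco h1 (hMN _ _), inner_smul_right, ← hco, h2]
  push_cast
  rfl

end Pool.Agent.Helper40.Nil
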