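import Mathlib
import Pool.Agent.Helper40.Nil.Stmts

/-! Module RAIN of project Nil: Rainwater's theorem for positive definite functions. -/

namespace Pool.Agent.Helper40.Nil

open Filter Topology
open scoped ComplexConjugate InnerProductSpace

universe u

/-- the maximum of an affine continuous function on `KK V` is attained at an extreme point -/
theorem rain_max {V : Type u} [Group V] (hK : IsCompact (KK V)) (y : C(KK V, ℝ)) (p0 : KK V)
    (hy : ∀ (a b c : KK V) (s t : ℝ), 0 ≤ s → 0 ≤ t → s + t = 1 →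
      (c : V → ℂ) = s • (a : V → ℂ) + t • (b : V → ℂ) → y c = s * y a + t * y b) :
    ∃ b : KK V, (b : V → ℂ) ∈ (KK V).extremePoints ℝ ∧ ∀ x, y x ≤ y b := by
  have : CompactSpace (KK V) := isCompact_iff_compactSpace.mp hK
  obtain ⟨m, -, hm⟩ := (isCompact_univ : IsCompact (Set.univ : Set (KK V))).exists_isMaxOn
    ⟨p0, Set.mem_univ _⟩ y.continuous.continuousOn
  have hm' : ∀ x, y x ≤ y m := fun x => hm (Set.mem_univ x)
  set S : Set (V → ℂ) := Subtype.val '' {x : KK V | y x = y m} with hS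
  have hScomp : IsCompact S := by
    have hcl : IsClosed {x : KK V | y x = y m} := isClosed_eq y.continuous continuous_const
    exact hcl.isCompact.image continuous_subtype_val
  have hSne : S.Nonempty := ⟨m, m, rfl, rfl⟩
  have hSext : IsExtreme ℝ (KK V) S := by
    refine ⟨?_, ?_⟩
    · rintro _ ⟨x, -, rfl⟩
      exact x.2
    · intro a ha b hb z hz hzab
      obtain ⟨c, hc, rfl⟩ := hz
      obtain ⟨s, t, hs, ht, hst, he⟩ := hzab
      have h1 := hy ⟨a, ha⟩ ⟨b, hb⟩ c s t hs.le ht.le hst he.symm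
      refine ⟨⟨a, ha⟩, ?_, rfl⟩
      have h2 := hm' ⟨a, ha⟩
      have h3 := hm' ⟨b, hb⟩
      have hc' : y c = y m := hc
      have h4 : y ⟨a, ha⟩ = y m := by
        by_contra hne
        have hlt : y ⟨a, ha⟩ < y m := lt_of_le_of_ne h2 hne
        have h5 : s * y ⟨a, ha⟩ < s * y m := mul_lt_mul_of_pos_left hlt hs
        have h6 : t * y ⟨b, hb⟩ ≤ t * y m := mul_le_mul_of_nonneg_left h3 ht.le
        have h7 : s * y m + t * y m = y m := by rw [← add_mul, hst, one_mul]
        linarith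
      exact h4
  obtain ⟨e, he⟩ := hScomp.extremePoints_nonempty hSne
  have he2 : e ∈ S := he.1
  obtain ⟨b, hb, hbe⟩ := he2
  refine ⟨b, ?_, ?_⟩
  · rw [hbe]
    exact hSext.extremePoints_subset_extremePoints he
  · intro x
    have hb' : y b = y m := hb
    rw [hb']
    exact hm' x

theorem rain_half (h1 : ST_SIM.{u}) (h2 : ST_KC.{u, 0}) (V : Type u) [Group V]
    (f : ℕ → (V → ℂ) → ℂ) (C : ℝ) (hl : ∀ n, IsLinearMap ℂ (f n)) (hc : ∀ n, Continuous (f n))
    (hC : ∀ n, ∀ φ ∈ KK V, ‖f n φ‖ ≤ C)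
    (hext : ∀ φ ∈ (KK V).extremePoints ℝ, Tendsto (fun n => f n φ) atTop (𝓝 0))
    (φ : V → ℂ) (hφ : φ ∈ KK V) (w : ℂ) (hw : ‖w‖ = 1) (ε : ℝ) (hε : 0 < ε) :
    ∀ᶠ n in atTop, (w * f n φ).re < ε := by
  by_contra hcon
  have hfr : ∃ᶠ n in atTop, ε ≤ (w * f n φ).re := by
    have := Filter.not_eventually.mp hcon
    exact this.mono (fun n hn => not_lt.mp hn)
  obtain ⟨σ, hσ, hσ2⟩ := extraction_of_frequently_atTop hfr
  have hK := (h2 V).1
  have : CompactSpace (KK V) := isCompact_iff_compactSpace.mp hK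
  have hC0 : 0 ≤ C := (norm_nonneg _).trans (hC 0 φ hφ)
  let F : ℕ → C(KK V, ℝ) := fun n => ⟨fun x => (w * f (σ n) (x : V → ℂ)).re,
    Complex.continuous_re.comp (continuous_const.mul ((hc (σ n)).comp continuous_subtype_val))⟩
  have hFv : ∀ n (x : KK V), F n x = (w * f (σ n) (x : V → ℂ)).re := fun n x => rfl
  let A : Set C(KK V, ℝ) := {y | ∀ (a b c : KK V) (s t : ℝ), 0 ≤ s → 0 ≤ t → s + t = 1 →
      (c : V → ℂ) = s • (a : V → ℂ) + t • (b : V → ℂ) → y c = s * y a + t * y b}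
  have hAF : Set.range F ⊆ A := by
    rintro _ ⟨n, rfl⟩
    intro a b c s t _ _ _ hcab
    rw [hFv, hFv, hFv, hcab]
    have e1 : s • (a : V → ℂ) + t • (b : V → ℂ) = (s : ℂ) • (a : V → ℂ) + (t : ℂ) • (b : V → ℂ) := by
      ext x
      simp
    rw [e1, (hl (σ n)).map_add, (hl (σ n)).map_smul, (hl (σ n)).map_smul, smul_eq_mul, smul_eq_mul,
      mul_add, Complex.add_re]
    congr 1
    · rw [mul_left_comm, Complex.re_ofReal_mul]
    · rw [mul_left_comm, Complex.re_ofReal_mul]
  have hAconv : Convex ℝ A := by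
    intro y hy z hz s t hs ht hst a b c s' t' hs' ht' hst' hcab
    have e1 := hy a b c s' t' hs' ht' hst' hcab
    have e2 := hz a b c s' t' hs' ht' hst' hcab
    simp only [ContinuousMap.add_apply, ContinuousMap.smul_apply, smul_eq_mul]
    rw [e1, e2]
    ring
  have hAcl : IsClosed A := by
    have : A = ⋂ (a : KK V), ⋂ (b : KK V), ⋂ (c : KK V), ⋂ (s : ℝ), ⋂ (t : ℝ), ⋂ (_ : 0 ≤ s),
        ⋂ (_ : 0 ≤ t), ⋂ (_ : s + t = 1), ⋂ (_ : (c : V → ℂ) = s • (a : V → ℂ) + t • (b : V → ℂ)),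
        {y : C(KK V, ℝ) | y c = s * y a + t * y b} := by
      ext y
      simp only [Set.mem_iInter]
      rfl
    rw [this]
    refine isClosed_iInter fun a => isClosed_iInter fun b => isClosed_iInter fun c =>
      isClosed_iInter fun s => isClosed_iInter fun t => isClosed_iInter fun _ =>
      isClosed_iInter fun _ => isClosed_iInter fun _ => isClosed_iInter fun _ => ?_
    exact isClosed_eq (continuous_eval_const c)
      ((continuous_const.mul (continuous_eval_const a)).add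
        (continuous_const.mul (continuous_eval_const b)))
  have hsub : closure (convexHull ℝ (Set.range F)) ⊆ A :=
    closure_minimal (convexHull_min hAF hAconv) hAcl
  have hsim := h1 (KK V) {b : KK V | (b : V → ℂ) ∈ (KK V).extremePoints ℝ} F C ?_ ?_ ?_ ⟨φ, hφ⟩ ε hε
  · obtain ⟨n, hn⟩ := hsim
    rw [hFv] at hn
    exact absurd hn (not_lt.mpr (hσ2 n))
  · intro n
    rw [ContinuousMap.norm_le _ hC0]
    intro x
    rw [hFv, Real.norm_eq_abs]
    refine (Complex.abs_re_le_norm _).trans ?_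
    rw [norm_mul, hw, one_mul]
    exact hC _ _ x.2
  · intro y hy
    obtain ⟨b, hb, hb2⟩ := rain_max hK y ⟨φ, hφ⟩ (hsub hy)
    exact ⟨b, hb, hb2⟩
  · intro b hb δ hδ
    have h3 : Tendsto (fun n => f (σ n) (b : V → ℂ)) atTop (𝓝 0) :=
      (hext _ hb).comp hσ.tendsto_atTop
    have h4 : Tendsto (fun n => F n b) atTop (𝓝 0) := by
      have h5 : Tendsto (fun n => (w * f (σ n) (b : V → ℂ)).re) atTop (𝓝 (w * 0).re) :=
        (Complex.continuous_re.tendsto _).comp (h3.const_mul w)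
      rw [mul_zero, Complex.zero_re] at h5
      exact h5
    exact (h4.eventually (gt_mem_nhds hδ)).mono (fun n hn => hn.le)

theorem st_RAIN (h1 : ST_SIM.{u}) (h2 : ST_KC.{u, 0}) : ST_RAIN.{u} := by
  intro V _ f C hl hc hC hext φ hφ
  have key := fun w hw => rain_half h1 h2 V f C hl hc hC hext φ hφ w hw
  rw [Metric.tendsto_atTop']
  intro ε hε
  have hε2 : 0 < ε / 2 := by linarith
  have k1 := key 1 (by simp) (ε / 2) hε2
  have k2 := key (-1) (by simp) (ε / 2) hε2
  have k3 := key Complex.I (by simp) (ε / 2) hε2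
  have k4 := key (-Complex.I) (by simp) (ε / 2) hε2
  obtain ⟨N, hN⟩ := eventually_atTop.mp (k1.and (k2.and (k3.and k4)))
  refine ⟨N, fun n hn => ?_⟩
  obtain ⟨a1, a2, a3, a4⟩ := hN n hn.le
  rw [dist_zero_right]
  simp only [one_mul, neg_mul, Complex.neg_re, Complex.mul_re, Complex.I_re, Complex.I_im,
    zero_mul, zero_sub, neg_neg] at a1 a2 a3 a4
  have hre : |(f n φ).re| < ε / 2 := abs_lt.mpr ⟨by linarith, a1⟩
  have him : |(f n φ).im| < ε / 2 := abs_lt.mpr ⟨by linarith, by linarith⟩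
  have := Complex.norm_le_abs_re_add_abs_im (f n φ)
  linarith

end Pool.Agent.Helper40.Nil
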