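import Mathlib
import Pool.Agent.Helper40.Nil.Stmts

/-! Module VDC of project Nil: van der Corput inequality. -/

namespace Pool.Agent.Helper40.Nil

open Filter Topology
open scoped ComplexConjugate InnerProductSpace

universe u

theorem vdc_csq {D : Type} {E : Type u} [AddCommGroup D] [NormedAddCommGroup E] [NormedSpace ℂ E]
    (S : Finset D) (hS : S.Nonempty) (b : D → E) :
    ‖avg S b‖ ^ 2 ≤ (S.card : ℝ)⁻¹ * ∑ x ∈ S, ‖b x‖ ^ 2 := by
  have hpos : (0 : ℝ) < S.card := by exact_mod_cast hS.card_pos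
  unfold avg
  rw [norm_smul, norm_inv, Complex.norm_natCast, mul_pow]
  have h1 : ‖∑ x ∈ S, b x‖ ≤ ∑ x ∈ S, ‖b x‖ := norm_sum_le _ _
  have h2 : (∑ x ∈ S, ‖b x‖) ^ 2 ≤ S.card * ∑ x ∈ S, ‖b x‖ ^ 2 := sq_sum_le_card_mul_sum_sq
  have h3 : ‖∑ x ∈ S, b x‖ ^ 2 ≤ S.card * ∑ x ∈ S, ‖b x‖ ^ 2 :=
    (pow_le_pow_left₀ (norm_nonneg _) h1 2).trans h2
  have h4 := mul_le_mul_of_nonneg_left h3 (sq_nonneg ((S.card : ℝ)⁻¹))
  refine h4.trans (le_of_eq ?_)
  field_simp

theorem vdc_norm_sq {E : Type u} [NormedAddCommGroup E] [InnerProductSpace ℂ E] {k : ℕ}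
    (v : Fin k → E) : ‖∑ i, v i‖ ^ 2 = (∑ i, ∑ j, ⟪v i, v j⟫_ℂ).re := by
  have h : ⟪∑ i, v i, ∑ j, v j⟫_ℂ = ∑ i, ∑ j, ⟪v i, v j⟫_ℂ := by
    rw [sum_inner]
    refine Finset.sum_congr rfl (fun i _ => ?_)
    rw [inner_sum]
  rw [← h]
  have := inner_self_eq_norm_sq (𝕜 := ℂ) (∑ i, v i)
  exact this.symm

theorem st_VDC (h1 : ST_AVG.{u}) : ST_VDC.{u} := by
  intro D _ Φ hΦ E _ _ a ha k hk g hg ε hε
  have hk0 : (0 : ℝ) < k := by exact_mod_cast hk
  set b : D → E := fun x => ((k : ℂ)⁻¹) • ∑ i, a (x + g i) with hb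
  have hshift := fun i => h1.1 D Φ hΦ E a 1 ha (g i)
  -- averages of b and a are close
  have hdiff : ∀ N, avg (Φ N) b - avg (Φ N) a =
      ((k : ℂ)⁻¹) • ∑ i, (avg (Φ N) (fun x => a (x + g i)) - avg (Φ N) a) := by
    intro N
    rw [Finset.sum_sub_distrib, smul_sub, Finset.sum_const, Finset.card_univ, Fintype.card_fin,
      ← Nat.cast_smul_eq_nsmul ℂ, smul_smul, inv_mul_cancel₀ (by exact_mod_cast hk0.ne'), one_smul]
    congr 1
    unfold avg
    rw [hb, ← Finset.smul_sum, Finset.sum_comm, smul_comm, ← Finset.smul_sum]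
  have hdlim : Tendsto (fun N => avg (Φ N) b - avg (Φ N) a) atTop (𝓝 0) := by
    have h2 : Tendsto (fun N => ((k : ℂ)⁻¹) •
        ∑ i, (avg (Φ N) (fun x => a (x + g i)) - avg (Φ N) a)) atTop (𝓝 (((k : ℂ)⁻¹) •
          ∑ i : Fin k, (0 : E))) :=
      (tendsto_finset_sum _ (fun i _ => hshift i)).const_smul _
    simp only [Finset.sum_const_zero, smul_zero] at h2
    exact h2.congr (fun N => (hdiff N).symm)
  -- norms of averages
  have hnorm : ∀ (c : D → E), (∀ x, ‖c x‖ ≤ 1) → ∀ N, ‖avg (Φ N) c‖ ≤ 1 := by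
    intro c hc N
    have hpos : (0 : ℝ) < (Φ N).card := by exact_mod_cast (hΦ.nonempty N).card_pos
    unfold avg
    rw [norm_smul, norm_inv, Complex.norm_natCast, inv_mul_le_iff₀ hpos, mul_one]
    refine (norm_sum_le_of_le _ (fun x _ => hc x)).trans ?_
    simp
  have hb1 : ∀ x, ‖b x‖ ≤ 1 := by
    intro x
    rw [hb]
    simp only
    rw [norm_smul, norm_inv, Complex.norm_natCast, inv_mul_le_iff₀ hk0, mul_one]
    refine (norm_sum_le_of_le _ (fun x _ => ha _)).trans ?_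
    simp
  -- the correlations
  set R : ℕ → ℝ := fun N => ∑ i, ∑ j, if i = j then 0 else
    ‖avg (Φ N) (fun x => ⟪a (x + g i), a (x + g j)⟫_ℂ)‖ with hR
  have hRlim : Tendsto R atTop (𝓝 0) := by
    have h2 : Tendsto R atTop (𝓝 (∑ i : Fin k, ∑ j : Fin k, (0 : ℝ))) := by
      refine tendsto_finset_sum _ (fun i _ => tendsto_finset_sum _ (fun j _ => ?_))
      by_cases hij : i = j
      · simp only [if_pos hij]
        exact tendsto_const_nhds
      · simp only [if_neg hij]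
        simpa using (hg i j hij).norm
    simpa using h2
  have hB : ∀ N, ‖avg (Φ N) b‖ ^ 2 ≤ 1 / (k : ℝ) + (k : ℝ)⁻¹ ^ 2 * R N := by
    intro N
    have hpos : (0 : ℝ) < (Φ N).card := by exact_mod_cast (hΦ.nonempty N).card_pos
    refine (vdc_csq (Φ N) (hΦ.nonempty N) b).trans ?_
    have e1 : ∀ x, ‖b x‖ ^ 2 = (k : ℝ)⁻¹ ^ 2 * (∑ i, ∑ j, ⟪a (x + g i), a (x + g j)⟫_ℂ).re := by
      intro x
      rw [hb]
      simp only
      rw [norm_smul, norm_inv, Complex.norm_natCast, mul_pow, vdc_norm_sq]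
    have e2 : ((Φ N).card : ℝ)⁻¹ * ∑ x ∈ Φ N, ‖b x‖ ^ 2 = (k : ℝ)⁻¹ ^ 2 *
        ∑ i, ∑ j, (avg (Φ N) (fun x => ⟪a (x + g i), a (x + g j)⟫_ℂ)).re := by
      simp only [e1]
      rw [← Finset.mul_sum, ← mul_assoc, mul_comm ((Φ N).card : ℝ)⁻¹, mul_assoc]
      congr 1
      simp only [Complex.re_sum]
      rw [Finset.sum_comm, Finset.mul_sum]
      refine Finset.sum_congr rfl (fun i _ => ?_)
      rw [Finset.sum_comm, Finset.mul_sum]
      refine Finset.sum_congr rfl (fun j _ => ?_)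
      unfold avg
      rw [smul_eq_mul]
      have : (((Φ N).card : ℂ))⁻¹ = (((((Φ N).card : ℝ))⁻¹ : ℝ) : ℂ) := by push_cast; rfl
      rw [this, Complex.re_ofReal_mul, Complex.re_sum]
    rw [e2]
    have e3 : ∀ i j, (avg (Φ N) (fun x => ⟪a (x + g i), a (x + g j)⟫_ℂ)).re ≤
        (if i = j then 1 else 0) + (if i = j then 0 else
          ‖avg (Φ N) (fun x => ⟪a (x + g i), a (x + g j)⟫_ℂ)‖) := by
      intro i j
      by_cases hij : i = j
      · rw [if_pos hij, if_pos hij, add_zero]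
        refine (Complex.re_le_norm _).trans ?_
        unfold avg
        rw [norm_smul, norm_inv, Complex.norm_natCast, inv_mul_le_iff₀ hpos, mul_one]
        refine (norm_sum_le_of_le _ (fun x _ => (norm_inner_le_norm _ _).trans
          (mul_le_one₀ (ha _) (norm_nonneg _) (ha _)))).trans ?_
        simp
      · rw [if_neg hij, if_neg hij, zero_add]
        exact Complex.re_le_norm _
    have e4 : ∑ i, ∑ j, (avg (Φ N) (fun x => ⟪a (x + g i), a (x + g j)⟫_ℂ)).re ≤ k + R N := by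
      refine (Finset.sum_le_sum (fun i _ => Finset.sum_le_sum (fun j _ => e3 i j))).trans ?_
      simp only [Finset.sum_add_distrib]
      simp [hR]
    refine (mul_le_mul_of_nonneg_left e4 (by positivity)).trans (le_of_eq ?_)
    field_simp
  have hfin : ∀ N, ‖avg (Φ N) a‖ ^ 2 ≤ 1 / (k : ℝ) + ((k : ℝ)⁻¹ ^ 2 * R N +
      2 * ‖avg (Φ N) b - avg (Φ N) a‖) := by
    intro N
    have h3 := hB N
    have h4 : ‖avg (Φ N) a‖ ≤ ‖avg (Φ N) b‖ + ‖avg (Φ N) b - avg (Φ N) a‖ := by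
      have := norm_sub_norm_le (avg (Φ N) a) (avg (Φ N) b)
      rw [norm_sub_rev] at this
      linarith
    have h5 := hnorm a ha N
    have h6 := hnorm b hb1 N
    have h7 := norm_nonneg (avg (Φ N) a)
    have h8 := norm_nonneg (avg (Φ N) b)
    have h9 := norm_nonneg (avg (Φ N) b - avg (Φ N) a)
    have h10 : ‖avg (Φ N) a‖ ^ 2 ≤ ‖avg (Φ N) b‖ ^ 2 + 2 * ‖avg (Φ N) b - avg (Φ N) a‖ := by
      nlinarith
    linarith
  have hlim : Tendsto (fun N => (k : ℝ)⁻¹ ^ 2 * R N +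
      2 * ‖avg (Φ N) b - avg (Φ N) a‖) atTop (𝓝 0) := by
    have := (hRlim.const_mul ((k : ℝ)⁻¹ ^ 2)).add (hdlim.norm.const_mul 2)
    simpa using this
  filter_upwards [hlim.eventually (gt_mem_nhds hε)] with N hN
  have := hfin N
  linarith

end Pool.Agent.Helper40.Nil
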