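import Mathlib
import Pool.Agent.Helper40.Nil.Stmts

/-! Module WNI of project Nil: decay for infinite dimensional irreducible representations. -/

namespace Pool.Agent.Helper40.Nil

open Filter Topology
open scoped ComplexConjugate InnerProductSpace

universe u

open Classical in
theorem wni_fib {V W : Type u} (g : V → W) (s : Finset V) (c : V → ℂ) (H : W → ℂ) :
    ∑ q ∈ s.image g, (∑ x ∈ s with g x = q, c x) * H q = ∑ x ∈ s, c x * H (g x) := by
  rw [← Finset.sum_fiberwise_of_maps_to (s := s) (t := s.image g) (g := g)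
    (fun x hx => Finset.mem_image_of_mem g hx) (fun x => c x * H (g x))]
  refine Finset.sum_congr rfl (fun q _ => ?_)
  rw [Finset.sum_mul]
  refine Finset.sum_congr rfl (fun x hx => ?_)
  rw [(Finset.mem_filter.mp hx).2]

/-- the image of a power subgroup -/
theorem wni_pw {V W : Type u} [Group V] [Group W] (g : V →* W) (e : ℕ) (x : V) (hx : x ∈ pw V e) :
    g x ∈ pw W e := by
  have h : pw V e ≤ (pw W e).comap g := by
    unfold pw
    rw [Subgroup.closure_le]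
    rintro _ ⟨y, rfl⟩
    change g (y ^ e) ∈ Subgroup.closure (Set.range fun y : W => y ^ e)
    rw [map_pow]
    exact Subgroup.subset_closure ⟨g y, rfl⟩
  exact h hx

theorem wni_zp {V W : Type u} [Group V] [Group W] (g : V →* W) (Ψ : W → ℂ) (φ : V → ℂ)
    (hΨ : ∀ x, Ψ (g x) = ((‖φ x‖ ^ 2 : ℝ) : ℂ))
    (h : ∀ e : ℕ, 1 ≤ e → ∀ ε : ℝ, 0 < ε → ∃ (s : Finset V) (c : V → ℝ),
      (∀ x ∈ s, x ∈ pw V e ∧ 0 ≤ c x) ∧ ∑ x ∈ s, c x = 1 ∧
      ∑ x ∈ s, ∑ y ∈ s, c x * c y * ‖φ (x⁻¹ * y)‖ ^ 2 ≤ ε) : ZP Ψ := by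
  classical
  intro e he ε hε
  obtain ⟨s, c, hs, hc, hsum⟩ := h e he ε hε
  refine ⟨s.image g, fun q => ∑ x ∈ s with g x = q, c x, ?_, ?_, ?_⟩
  · intro q hq
    obtain ⟨x, hx, rfl⟩ := Finset.mem_image.mp hq
    refine ⟨wni_pw g e x (hs x hx).1, ?_⟩
    exact Finset.sum_nonneg (fun y hy => (hs y (Finset.mem_filter.mp hy).1).2)
  · rw [Finset.sum_fiberwise_of_maps_to (fun x hx => Finset.mem_image_of_mem g hx)]
    exact hc
  · have e1 : ∑ x ∈ s.image g, ∑ y ∈ s.image g,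
        (((∑ z ∈ s with g z = x, c z : ℝ) : ℂ)) * ((∑ z ∈ s with g z = y, c z : ℝ) : ℂ) *
          Ψ (x⁻¹ * y) =
        ((∑ x ∈ s, ∑ y ∈ s, c x * c y * ‖φ (x⁻¹ * y)‖ ^ 2 : ℝ) : ℂ) := by
      push_cast
      have e2 : ∀ x, ∑ y ∈ s.image g, (∑ z ∈ s with g z = x, (c z : ℂ)) *
          (∑ z ∈ s with g z = y, (c z : ℂ)) * Ψ (x⁻¹ * y) =
          (∑ z ∈ s with g z = x, (c z : ℂ)) * ∑ y ∈ s, (c y : ℂ) * Ψ (x⁻¹ * g y) := by
        intro x
        rw [← wni_fib g s (fun z => (c z : ℂ)) (fun q => Ψ (x⁻¹ * q)), Finset.mul_sum]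
        refine Finset.sum_congr rfl (fun y _ => ?_)
        ring
      rw [Finset.sum_congr rfl (fun x _ => e2 x)]
      rw [wni_fib g s (fun z => (c z : ℂ)) (fun q => ∑ y ∈ s, (c y : ℂ) * Ψ (q⁻¹ * g y))]
      refine Finset.sum_congr rfl (fun x _ => ?_)
      rw [Finset.mul_sum]
      refine Finset.sum_congr rfl (fun y _ => ?_)
      have e3 : (g x)⁻¹ * g y = g (x⁻¹ * y) := by rw [map_mul, map_inv]
      rw [e3, hΨ]
      push_cast
      ring
    rw [e1, Complex.norm_real, Real.norm_eq_abs, abs_of_nonneg]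
    · exact hsum
    · exact Finset.sum_nonneg (fun x hx => Finset.sum_nonneg (fun y hy =>
        mul_nonneg (mul_nonneg (hs x hx).2 (hs y hy).2) (sq_nonneg _)))

theorem wni_central (h : ST_EXT.{u}) {V : Type u} [Group V] (φ : V → ℂ)
    (hφ : φ ∈ (KK V).extremePoints ℝ)
    {E : Type u} [NormedAddCommGroup E] [InnerProductSpace ℂ E] [CompleteSpace E]
    (π : V →* (E ≃ₗᵢ[ℂ] E)) (ζ : E) (hG : IsGNS φ π ζ) (z : V) (hz : z ∈ Subgroup.center V) (y : V) :
    ‖φ (z * y)‖ = ‖φ y‖ := by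
  have hcomm : ∀ x, x * z = z * x := Subgroup.mem_center_iff.mp hz
  obtain ⟨c, hc⟩ := h V φ hφ E π ζ hG
    ((π z).toContinuousLinearEquiv : E →L[ℂ] E) (fun x v => by
      change π z (π x v) = π x (π z v)
      have h1 : π z (π x v) = (π z * π x) v := rfl
      have h2 : π x (π z v) = (π x * π z) v := rfl
      rw [h1, h2, ← map_mul, ← map_mul, hcomm])
  have hc' : ∀ v, π z v = c • v := hc
  have hζ : ‖ζ‖ = 1 := by
    have h1 := hG.coef 1
    rw [hφ.1.2, map_one] at h1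
    have h2 : ⟪ζ, (1 : E ≃ₗᵢ[ℂ] E) ζ⟫_ℂ = (‖ζ‖ : ℂ) ^ 2 := inner_self_eq_norm_sq_to_K ζ
    rw [h2] at h1
    have h3 : ‖ζ‖ ^ 2 = 1 := by exact_mod_cast h1.symm
    nlinarith [norm_nonneg ζ]
  have hcn : ‖c‖ = 1 := by
    have h1 : ‖π z ζ‖ = ‖ζ‖ := LinearIsometryEquiv.norm_map _ _
    rw [hc', norm_smul, hζ, mul_one] at h1
    exact h1
  have h1 : φ (z * y) = c * φ y := by
    rw [hG.coef, hG.coef, map_mul]
    have h2 : (π z * π y) ζ = c • π y ζ := hc' (π y ζ)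
    rw [h2, inner_smul_right]
  rw [h1, norm_mul, hcn, one_mul]

theorem st_WNI (h1 : ST_HSZ.{u}) (h2 : ST_EXT.{u}) (h3 : ST_SCH.{u}) (h4 : ST_POLA.{u, u}) :
    ST_WNI.{u} := by
  intro c hEE V _ _ hcl hfg D _ hD Φ hΦ u hu hu0 hur φ hφ E _ _ _ π ζ hG hE
  have hΨ := (h3 V).1 φ hφ.1
  obtain ⟨Ψ, hΨK, hΨe⟩ := (h3 V).2 (Subgroup.center V) _ hΨ (fun z hz y => by
    rw [wni_central h2 φ hφ π ζ hG z hz y])
  have hcl' : Group.nilpotencyClass (V ⧸ Subgroup.center V) ≤ c := by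
    rw [Group.nilpotencyClass_quotient_center]
    omega
  have hfg' : Group.FG (V ⧸ Subgroup.center V) := by
    have := hfg
    infer_instance
  have hzp : ZP Ψ := wni_zp (QuotientGroup.mk' (Subgroup.center V)) Ψ φ hΨe
    (fun e he ε hε => h1 V inferInstance hfg φ hφ E π ζ hG hE e he ε hε)
  have hpoly := h4.1 D V (V ⧸ Subgroup.center V) (QuotientGroup.mk' (Subgroup.center V)) u hu
  have hrange : Subgroup.closure (Set.range fun x => QuotientGroup.mk' (Subgroup.center V) (u x)) = ⊤ := by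
    have e1 : (Set.range fun x => QuotientGroup.mk' (Subgroup.center V) (u x)) =
        QuotientGroup.mk' (Subgroup.center V) '' Set.range u := by
      rw [← Set.range_comp]
      rfl
    rw [e1, ← MonoidHom.map_closure, hur, ← MonoidHom.range_eq_map,
      MonoidHom.range_eq_top]
    exact QuotientGroup.mk'_surjective _
  have hfin := hEE (V ⧸ Subgroup.center V) hcl' hfg' D hD Φ hΦ
    (fun x => QuotientGroup.mk' (Subgroup.center V) (u x)) hpoly (by rw [hu0, map_one]) hrange Ψ hΨK hzp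
  refine hfin.congr (fun N => ?_)
  unfold avg
  congr 1
  refine Finset.sum_congr rfl (fun x _ => ?_)
  exact hΨe (u x)

end Pool.Agent.Helper40.Nil
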